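import Pool.Agent.Helper44_Art.Stmt

/-!
Squad ART (MP_61f49c_al): AMF, amalgams of finite groups are residually finite.
-/

set_option autoImplicit false

namespace Art.H18

open Art

/-- structure of free actions -/
theorem free_str {H A : Type} [Group H] (α : H →* Equiv.Perm A)
    (hα : ∀ h a, α h a = a → h = 1) :
    ∃ (Ω : Type) (e : H × Ω ≃ A), ∀ k h ω, e (k * h, ω) = α k (e (h, ω)) := by
  let r : Setoid A :=
    { r := fun a b => ∃ h, α h a = b
      iseqv := by
        refine ⟨fun a => ⟨1, by simp⟩, ?_, ?_⟩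
        · rintro a b ⟨h, rfl⟩
          exact ⟨h⁻¹, by rw [← Equiv.Perm.mul_apply, ← map_mul]; simp⟩
        · rintro a b c ⟨h, rfl⟩ ⟨k, rfl⟩
          exact ⟨k * h, by rw [map_mul, Equiv.Perm.mul_apply]⟩ }
  refine ⟨Quotient r, Equiv.ofBijective (fun p => α p.1 (Quotient.out p.2)) ⟨?_, ?_⟩, ?_⟩
  · rintro ⟨h, ω⟩ ⟨h', ω'⟩ he
    simp only at he
    have h1 : α (h'⁻¹ * h) (Quotient.out ω) = Quotient.out ω' := by
      rw [map_mul, Equiv.Perm.mul_apply, he, ← Equiv.Perm.mul_apply, ← map_mul, inv_mul_cancel,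
        map_one]
      rfl
    have h2 : ω = ω' := by
      rw [← Quotient.out_eq ω, ← Quotient.out_eq ω']
      exact Quotient.sound ⟨_, h1⟩
    subst h2
    have h3 := hα _ _ h1
    rw [inv_mul_eq_one] at h3
    rw [h3]
  · intro a
    obtain ⟨h, hh⟩ : ∃ h, α h (Quotient.out (Quotient.mk r a)) = a :=
      Quotient.exact (Quotient.out_eq (Quotient.mk r a))
    exact ⟨(h, Quotient.mk r a), hh⟩
  · intro k h ω
    change α (k * h) (Quotient.out ω) = α k (α h (Quotient.out ω))
    rw [map_mul, Equiv.Perm.mul_apply]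

/-- free actions on finite sets with the same number of elements are isomorphic -/
theorem free_equiv {H A B : Type} [Group H] [Finite H] [Finite A] [Finite B]
    (α : H →* Equiv.Perm A) (β : H →* Equiv.Perm B)
    (hα : ∀ h a, α h a = a → h = 1) (hβ : ∀ h b, β h b = b → h = 1)
    (hc : Nat.card A = Nat.card B) : ∃ e : A ≃ B, ∀ h a, e (α h a) = β h (e a) := by
  obtain ⟨Ω, e, he⟩ := free_str α hα
  obtain ⟨Ω', e', he'⟩ := free_str β hβ
  have c1 : Nat.card A = Nat.card H * Nat.card Ω := by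
    rw [← Nat.card_congr e, Nat.card_prod]
  have c2 : Nat.card B = Nat.card H * Nat.card Ω' := by
    rw [← Nat.card_congr e', Nat.card_prod]
  have hH : 0 < Nat.card H := Nat.card_pos
  have c3 : Nat.card Ω = Nat.card Ω' := by
    rw [c1, c2] at hc
    exact Nat.eq_of_mul_eq_mul_left hH hc
  have : Finite Ω := Finite.of_injective (fun ω => e (1, ω)) (fun a b h => by
    simpa using congrArg Prod.snd (e.injective h))
  have : Finite Ω' := Finite.of_injective (fun ω => e' (1, ω)) (fun a b h => by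
    simpa using congrArg Prod.snd (e'.injective h))
  obtain ⟨f⟩ : Nonempty (Ω ≃ Ω') := Finite.card_eq.mp c3
  refine ⟨(e.symm.trans ((Equiv.refl H).prodCongr f)).trans e', fun h a => ?_⟩
  obtain ⟨⟨k, ω⟩, rfl⟩ := e.surjective a
  rw [← he]
  simp [he']

/-- left multiplication on the first factor -/
def lm (G T : Type) [Group G] : G →* Equiv.Perm (G × T) where
  toFun g := (Equiv.mulLeft g).prodCongr (Equiv.refl T)
  map_one' := by ext ⟨a, b⟩ <;> simp
  map_mul' g h := by ext ⟨a, b⟩ <;> simp [mul_assoc]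

lemma lm_apply (G T : Type) [Group G] (g : G) (p : G × T) : lm G T g p = (g * p.1, p.2) := rfl

/-- sum of two actions -/
def sm {G U V : Type} [Group G] (α : G →* Equiv.Perm U) (β : G →* Equiv.Perm V) :
    G →* Equiv.Perm (U ⊕ V) where
  toFun g := Equiv.sumCongr (α g) (β g)
  map_one' := by ext (a | a) <;> simp
  map_mul' g h := by ext (a | a) <;> simp

/-- extension of a free action -/
theorem extend {G H X U : Type} [Group G] [Finite G] [Group H] [Finite X] [Finite U]
    (φ : H →* G) (hφ : Function.Injective φ) (α : H →* Equiv.Perm X)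
    (hα : ∀ h x, α h x = x → h = 1) (γ : G →* Equiv.Perm U) (hγ : ∀ g u, γ g u = u → g = 1)
    (j : U → X) (hj : Function.Injective j) (hjα : ∀ h u, j (γ (φ h) u) = α h (j u))
    (hdvd : Nat.card G ∣ Nat.card X) :
    ∃ β : G →* Equiv.Perm X, (∀ h x, β (φ h) x = α h x) ∧ ∀ g u, β g (j u) = j (γ g u) := by
  classical
  have hH : Finite H := Finite.of_injective φ hφ
  have hinv : ∀ h x, α h x ∉ Set.range j ↔ x ∉ Set.range j := by
    have h1 : ∀ h x, x ∈ Set.range j → α h x ∈ Set.range j := by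
      rintro h x ⟨u, rfl⟩
      exact ⟨γ (φ h) u, hjα h u⟩
    intro h x
    refine not_congr ⟨fun hx => ?_, h1 h x⟩
    have := h1 h⁻¹ _ hx
    rw [← Equiv.Perm.mul_apply, ← map_mul] at this
    simpa using this
  let C : Type := {x : X // x ∉ Set.range j}
  let αC : H →* Equiv.Perm C :=
    { toFun := fun h => (α h).subtypePerm (hinv h)
      map_one' := by ext x; simp
      map_mul' := by intro a b; ext x; simp }
  have hαC : ∀ h c, αC h c = c → h = 1 := by
    intro h c hc
    exact hα h c.1 (congrArg Subtype.val hc)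
  obtain ⟨Ω, e, he⟩ := free_str γ hγ
  have cU : Nat.card U = Nat.card G * Nat.card Ω := by
    rw [← Nat.card_congr e, Nat.card_prod]
  have cX : Nat.card X = Nat.card U + Nat.card C := by
    have e1 : X ≃ (Set.range j) ⊕ C := (Equiv.sumCompl (fun x => x ∈ Set.range j)).symm
    rw [Nat.card_congr e1, Nat.card_sum, Nat.card_congr (Equiv.ofInjective j hj)]
  obtain ⟨t, ht⟩ := hdvd
  have cC : Nat.card C = Nat.card G * (t - Nat.card Ω) := by
    rw [Nat.mul_sub, ← ht, ← cU]
    omega
  obtain ⟨m, hm⟩ := free_equiv αC ((lm G (Fin (t - Nat.card Ω))).comp φ) hαC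
    (by
      intro h b hb
      have := congrArg Prod.fst hb
      simp only [MonoidHom.comp_apply, lm_apply] at this
      rw [mul_eq_right] at this
      exact hφ (by rw [this, map_one]))
    (by rw [cC, Nat.card_prod, Nat.card_eq_fintype_card (α := Fin _), Fintype.card_fin])
  let F0 : U ⊕ (G × Fin (t - Nat.card Ω)) → X := Sum.elim j (fun b => (m.symm b).1)
  have hF : Function.Bijective F0 := by
    constructor
    · rintro (a | a) (b | b) hab
      · exact congrArg Sum.inl (hj hab)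
      · exact absurd ⟨a, hab⟩ (m.symm b).2
      · exact absurd ⟨b, hab.symm⟩ (m.symm a).2
      · exact congrArg Sum.inr (m.symm.injective (Subtype.ext hab))
    · intro x
      by_cases hx : x ∈ Set.range j
      · obtain ⟨u, rfl⟩ := hx
        exact ⟨Sum.inl u, rfl⟩
      · refine ⟨Sum.inr (m ⟨x, hx⟩), ?_⟩
        simp [F0]
  let F := Equiv.ofBijective F0 hF
  refine ⟨F.permCongrHom.toMonoidHom.comp (sm γ (lm G (Fin (t - Nat.card Ω)))), ?_, ?_⟩
  · intro h x
    obtain ⟨z, rfl⟩ := F.surjective x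
    change F (sm γ (lm G _) (φ h) (F.symm (F z))) = α h (F z)
    rw [Equiv.symm_apply_apply]
    rcases z with u | b
    · exact hjα h u
    · change (m.symm (lm G _ (φ h) b)).1 = α h (m.symm b).1
      have h1 := hm h (m.symm b)
      rw [Equiv.apply_symm_apply] at h1
      have h2 : m.symm (lm G _ (φ h) b) = αC h (m.symm b) := by
        rw [Equiv.symm_apply_eq]
        exact h1.symm
      rw [h2]
      rfl
  · intro g u
    change F (sm γ (lm G _) g (F.symm (F (Sum.inl u)))) = j (γ g u)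
    rw [Equiv.symm_apply_apply]
    rfl

section amf

variable {ι : Type} [Finite ι] [Nonempty ι] {G : ι → Type} {H : Type} [∀ i, Group (G i)]
  [Group H] [∀ i, Finite (G i)] {φ : ∀ i, H →* G i}

/-- a letter -/
noncomputable def q (p : Σ i, G i) : Monoid.PushoutI φ := Monoid.PushoutI.of p.1 p.2

omit [Finite ι] [∀ i, Finite (G i)] in
theorem exists_list (g : Monoid.PushoutI φ) : ∃ L : List (Σ i, G i), (L.map (q (φ := φ))).prod = g := by
  induction g using Monoid.PushoutI.induction_on with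
  | of i g => exact ⟨[⟨i, g⟩], by simp [q]⟩
  | base h =>
    obtain ⟨i⟩ := ‹Nonempty ι›
    exact ⟨[⟨i, φ i h⟩], by simp [q, Monoid.PushoutI.of_apply_eq_base]⟩
  | mul x y hx hy =>
    obtain ⟨L, rfl⟩ := hx
    obtain ⟨L', rfl⟩ := hy
    exact ⟨L ++ L', by simp⟩

/-- AMF -/
theorem amf : AmfStmt := by
  intro ι _ _ G H _ _ _ φ hφ
  refine Group.residuallyFinite_of_forall_exists_finite_monoidHom fun g hg => ?_
  obtain ⟨L, hL⟩ := exists_list g
  have i0 : ι := Classical.arbitrary ι
  have hinj := Monoid.PushoutI.of_injective hφ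
  -- suffix products
  let Y : Set (Monoid.PushoutI φ) := (fun l => (l.map (q (φ := φ))).prod) '' {l | l <:+ L}
  have hY : Y.Finite := by
    refine Set.Finite.image _ ?_
    refine (L.tails.finite_toSet).subset ?_
    intro l hl
    exact (List.mem_tails l L).mpr hl
  let Ui : ι → Set (Monoid.PushoutI φ) := fun i =>
    (fun p : G i × Monoid.PushoutI φ => Monoid.PushoutI.of i p.1 * p.2) '' (Set.univ ×ˢ Y)
  have hUi : ∀ i, (Ui i).Finite := fun i => (Set.finite_univ.prod hY).image _
  have hmul : ∀ i (a : G i) w, w ∈ Ui i → Monoid.PushoutI.of i a * w ∈ Ui i := by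
    rintro i a _ ⟨⟨b, y⟩, hby, rfl⟩
    refine ⟨(a * b, y), ⟨Set.mem_univ _, hby.2⟩, ?_⟩
    simp [mul_assoc]
  let U : Set (Monoid.PushoutI φ) := ⋃ i, Ui i
  have hU : U.Finite := Set.finite_iUnion hUi
  have hbase : ∀ h w, w ∈ U → Monoid.PushoutI.base φ h * w ∈ U := by
    intro h w hw
    obtain ⟨i, hi⟩ := Set.mem_iUnion.mp hw
    refine Set.mem_iUnion.mpr ⟨i, ?_⟩
    rw [← Monoid.PushoutI.of_apply_eq_base φ i]
    exact hmul i _ _ hi
  have fU : Finite U := hU
  have fUi : ∀ i, Finite (Ui i) := hUi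
  let T : Type := ∀ i, G i
  let X : Type := U × T
  have fX : Finite X := inferInstanceAs (Finite (U × T))
  -- the action of H
  let α : H →* Equiv.Perm X :=
    { toFun := fun h =>
        { toFun := fun x => (⟨Monoid.PushoutI.base φ h * x.1.1, hbase h _ x.1.2⟩, x.2)
          invFun := fun x => (⟨Monoid.PushoutI.base φ h⁻¹ * x.1.1, hbase _ _ x.1.2⟩, x.2)
          left_inv := by rintro ⟨⟨x, hx⟩, t⟩; simp [← mul_assoc]
          right_inv := by rintro ⟨⟨x, hx⟩, t⟩; simp [← mul_assoc] }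
      map_one' := by ext ⟨⟨x, hx⟩, t⟩ <;> simp
      map_mul' := by intro a b; ext ⟨⟨x, hx⟩, t⟩ <;> simp [mul_assoc] }
  have hα : ∀ h x, α h x = x → h = 1 := by
    rintro h ⟨⟨x, hx⟩, t⟩ hh
    have h1 := congrArg (fun z : X => z.1.1) hh
    simp only [α, MonoidHom.coe_mk, OneHom.coe_mk, Equiv.coe_fn_mk] at h1
    rw [mul_eq_right] at h1
    exact Monoid.PushoutI.base_injective hφ (by rw [h1, map_one])
  -- the action of G i on Ui i
  let γ : ∀ i, G i →* Equiv.Perm (Ui i) := fun i =>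
    { toFun := fun a =>
        { toFun := fun x => ⟨Monoid.PushoutI.of i a * x.1, hmul i _ _ x.2⟩
          invFun := fun x => ⟨Monoid.PushoutI.of i a⁻¹ * x.1, hmul i _ _ x.2⟩
          left_inv := by rintro ⟨x, hx⟩; simp [← mul_assoc]
          right_inv := by rintro ⟨x, hx⟩; simp [← mul_assoc] }
      map_one' := by ext ⟨x, hx⟩; simp
      map_mul' := by intro a b; ext ⟨x, hx⟩; simp [mul_assoc] }
  have hγ : ∀ i a u, γ i a u = u → a = 1 := by
    rintro i a ⟨x, hx⟩ hh
    have h1 := congrArg (fun z : Ui i => z.1) hh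
    simp only [γ, MonoidHom.coe_mk, OneHom.coe_mk, Equiv.coe_fn_mk] at h1
    rw [mul_eq_right] at h1
    exact hinj i (by rw [h1, map_one])
  let j : ∀ i, Ui i → X := fun i u => (⟨u.1, Set.mem_iUnion.mpr ⟨i, u.2⟩⟩, 1)
  have hj : ∀ i, Function.Injective (j i) := by
    rintro i ⟨x, hx⟩ ⟨y, hy⟩ h
    have h1 := congrArg (fun z : X => z.1.1) h
    exact Subtype.ext h1
  have hext : ∀ i, ∃ β : G i →* Equiv.Perm X, (∀ h x, β (φ i h) x = α h x) ∧
      ∀ g u, β g (j i u) = j i (γ i g u) := by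
    intro i
    refine extend (φ i) (hφ i) α hα (γ i) (hγ i) (j i) (hj i) ?_ ?_
    · rintro h ⟨x, hx⟩
      refine Prod.ext (Subtype.ext ?_) rfl
      change Monoid.PushoutI.of i (φ i h) * x = Monoid.PushoutI.base φ h * x
      rw [Monoid.PushoutI.of_apply_eq_base]
    · change Nat.card (G i) ∣ Nat.card (U × T)
      rw [Nat.card_prod]
      refine Dvd.dvd.mul_left ?_ _
      have := Fintype.ofFinite ι
      rw [Nat.card_pi]
      exact Finset.dvd_prod_of_mem _ (Finset.mem_univ i)
  choose β hβ1 hβ2 using hext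
  let Ψ : Monoid.PushoutI φ →* Equiv.Perm X := Monoid.PushoutI.lift β α (by
    intro i
    ext1 h
    ext1 x
    exact hβ1 i h x)
  have hone : (1 : Monoid.PushoutI φ) ∈ Y := ⟨[], List.nil_suffix, by simp⟩
  have hYU : ∀ i y, y ∈ Y → y ∈ Ui i := fun i y hy =>
    ⟨(1, y), ⟨Set.mem_univ _, hy⟩, by simp⟩
  have hstep : ∀ l : List (Σ i, G i), l <:+ L →
      (Ψ (l.map (q (φ := φ))).prod (j i0 ⟨1, hYU i0 1 hone⟩)).1.1 = (l.map (q (φ := φ))).prod ∧
      (Ψ (l.map (q (φ := φ))).prod (j i0 ⟨1, hYU i0 1 hone⟩)).2 = 1 := by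
    intro l
    induction l with
    | nil => intro _; simp [j]
    | cons p l ih =>
      intro hl
      have hl' : l <:+ L := (List.suffix_cons p l).trans hl
      obtain ⟨h1, h1'⟩ := ih hl'
      have h2 : Ψ (l.map (q (φ := φ))).prod (j i0 ⟨1, hYU i0 1 hone⟩)
          = j p.1 ⟨(l.map (q (φ := φ))).prod, hYU p.1 _ ⟨l, hl', rfl⟩⟩ :=
        Prod.ext (Subtype.ext h1) h1'
      have h3 : Ψ (((p :: l).map (q (φ := φ))).prod) (j i0 ⟨1, hYU i0 1 hone⟩)
          = j p.1 (γ p.1 p.2 ⟨(l.map (q (φ := φ))).prod, hYU p.1 _ ⟨l, hl', rfl⟩⟩) := by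
        rw [← hβ2, ← h2, List.map_cons, List.prod_cons, map_mul, Equiv.Perm.mul_apply]
        change Ψ (Monoid.PushoutI.of p.1 p.2) _ = _
        rw [Monoid.PushoutI.lift_of]
      rw [h3]
      exact ⟨rfl, rfl⟩
  refine ⟨Equiv.Perm X, inferInstance, inferInstance, Ψ, fun h => hg ?_⟩
  have h1 := (hstep L List.suffix_rfl).1
  rw [hL, h] at h1
  exact h1.symm

end amf

end Art.H18
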