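import Pool.Agent.Helper44_Art.Stmt

/-!
Squad ART (MP_61f49c_al): PRIN, the amalgam principle.
-/

set_option autoImplicit false

namespace Art.H18

open Art Monoid Monoid.CoprodI

section prin

variable {ι : Type} [Nonempty ι] {G : ι → Type} {H : Type} [∀ i, Group (G i)] [Group H]

/-- the quotient amalgam -/
theorem quo (hAMF : AmfStmt) [Finite ι] (φ : ∀ i, H →* G i)
    (N : ∀ i, Subgroup (G i)) (hN : ∀ i, (N i).Normal ∧ (N i).FiniteIndex)
    (hc : ∀ i j, (N i).comap (φ i) = (N j).comap (φ j)) :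
    ∃ (K : Subgroup H) (_ : K.Normal) (_ : ∀ i, (N i).Normal) (ψ : ∀ i, H ⧸ K →* G i ⧸ N i)
      (Θ : PushoutI φ →* PushoutI ψ),
      (∀ i, Function.Injective (ψ i)) ∧ (∀ i h, ψ i (QuotientGroup.mk h) = QuotientGroup.mk (φ i h)) ∧
      (∀ i, (N i).comap (φ i) = K) ∧
      (∀ i g, Θ (PushoutI.of i g) = PushoutI.of i (QuotientGroup.mk g : G i ⧸ N i)) ∧
      (∀ h, Θ (PushoutI.base φ h) = PushoutI.base ψ (QuotientGroup.mk h)) ∧
      RF (PushoutI ψ) := by
  have i0 : ι := Classical.arbitrary ι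
  have hNn : ∀ i, (N i).Normal := fun i => (hN i).1
  have hNf : ∀ i, (N i).FiniteIndex := fun i => (hN i).2
  have hK : ((N i0).comap (φ i0)).Normal := inferInstance
  let ψ : ∀ i, H ⧸ ((N i0).comap (φ i0)) →* G i ⧸ N i := fun i =>
    QuotientGroup.map _ (N i) (φ i) (by rw [hc i0 i])
  have hψ : ∀ i h, ψ i (QuotientGroup.mk h) = QuotientGroup.mk (φ i h) := fun i h => rfl
  have hinj : ∀ i, Function.Injective (ψ i) := by
    intro i
    rw [injective_iff_map_eq_one]
    intro x
    induction x using QuotientGroup.induction_on with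
    | H h =>
      intro hx
      rw [hψ, QuotientGroup.eq_one_iff] at hx
      rw [QuotientGroup.eq_one_iff, hc i0 i]
      exact hx
  refine ⟨(N i0).comap (φ i0), hK, hNn, ψ,
    PushoutI.lift (fun i => (PushoutI.of i).comp (QuotientGroup.mk' (N i)))
      ((PushoutI.base ψ).comp (QuotientGroup.mk' _)) ?_, hinj, hψ, fun i => hc i i0, ?_, ?_,
    hAMF ψ hinj⟩
  · intro i
    ext h
    change PushoutI.of i (QuotientGroup.mk (φ i h) : G i ⧸ N i) = PushoutI.base ψ (QuotientGroup.mk h)
    rw [← hψ, PushoutI.of_apply_eq_base]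
  · intro i g
    rw [PushoutI.lift_of]
    rfl
  · intro h
    rw [PushoutI.lift_base]
    rfl

/-- PRIN -/
theorem prin (hAMF : AmfStmt) : PrinStmt := by
  classical
  intro ι _ _ G H _ _ φ hφ hRF hcl hcomp
  have i0 : ι := Classical.arbitrary ι
  refine Group.residuallyFinite_iff_exists_finiteIndex.mpr ?_
  intro g hg
  -- it is enough to find a quotient amalgam
  suffices hq : ∃ (N : ∀ i, Subgroup (G i)), (∀ i, (N i).Normal ∧ (N i).FiniteIndex) ∧
      (∀ i j, (N i).comap (φ i) = (N j).comap (φ j)) ∧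
      ∀ (K : Subgroup H) (_ : K.Normal) (_ : ∀ i, (N i).Normal) (ψ : ∀ i, H ⧸ K →* G i ⧸ N i)
      (Θ : PushoutI φ →* PushoutI ψ),
      (∀ i, Function.Injective (ψ i)) → (∀ i h, ψ i (QuotientGroup.mk h) = QuotientGroup.mk (φ i h)) →
      (∀ i, (N i).comap (φ i) = K) →
      (∀ i g, Θ (PushoutI.of i g) = PushoutI.of i (QuotientGroup.mk g : G i ⧸ N i)) →
      (∀ h, Θ (PushoutI.base φ h) = PushoutI.base ψ (QuotientGroup.mk h)) → Θ g ≠ 1 by
    obtain ⟨N, hN, hc, h⟩ := hq
    obtain ⟨K, hK, hNn, ψ, Θ, h1, h2, h3, h4, h5, h6⟩ := quo hAMF φ N hN hc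
    have h7 := h K hK hNn ψ Θ h1 h2 h3 h4 h5
    obtain ⟨M, hM, hgM⟩ := Group.residuallyFinite_iff_exists_finiteIndex.mp h6 _ h7
    refine ⟨M.comap Θ, ⟨?_⟩, hgM⟩
    rw [Subgroup.index_comap]
    exact (inferInstance : (M.subgroupOf Θ.range).FiniteIndex).index_ne_zero
  by_cases hb : g ∈ (PushoutI.base φ).range
  · obtain ⟨h, rfl⟩ := hb
    have hh : φ i0 h ≠ 1 := by
      intro h0
      have : h = 1 := hφ i0 (by rw [h0, map_one])
      rw [this, map_one] at hg
      exact hg rfl
    have := hRF i0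
    obtain ⟨N0, hN0⟩ := Group.exists_finiteIndexNormalSubgroup_notMem (φ i0 h) hh
    obtain ⟨N, hN, hc⟩ := hcomp (fun i => if hi : i = i0 then hi ▸ N0.toSubgroup else ⊤) (by
      intro i
      by_cases hi : i = i0
      · subst hi
        simp only [dif_pos]
        exact ⟨inferInstance, inferInstance⟩
      · simp only [dif_neg hi]
        exact ⟨inferInstance, inferInstance⟩)
    refine ⟨N, fun i => ⟨(hN i).1, (hN i).2.1⟩, hc, ?_⟩
    intro K hK hNn ψ Θ h1 h2 h3 h4 h5 h6
    rw [h5] at h6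
    have h7 := PushoutI.base_injective h1 (h6.trans (map_one _).symm)
    rw [QuotientGroup.eq_one_iff, ← h3 i0] at h7
    have h8 := (hN i0).2.2 h7
    simp only [dif_pos] at h8
    exact hN0 h8
  · obtain ⟨d⟩ := PushoutI.NormalWord.transversal_nonempty φ hφ
    let nw := PushoutI.NormalWord.equiv (d := d) g
    have hnw : nw.prod = g := PushoutI.NormalWord.equiv.symm_apply_apply g
    have hred : ∀ p ∈ nw.toList, p.2 ∉ (φ p.1).range := by
      rintro ⟨i, x⟩ hp ⟨h, hx⟩
      have h1 := nw.normalized i x hp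
      have h2 := nw.ne_one ⟨i, x⟩ hp
      have h3 : x ∈ (φ i).range := ⟨h, hx⟩
      have hcpl := d.compl i
      have h4 := hcpl.1 (a₁ := (⟨1, one_mem _⟩, ⟨x, h1⟩)) (a₂ := (⟨x, h3⟩, ⟨1, d.one_mem i⟩))
        (by simp)
      have h5 := congrArg (fun z => (z.2 : G i)) h4
      exact h2 h5
    have hch : ∀ i (x : G i), ∃ N : Subgroup (G i), N.Normal ∧ N.FiniteIndex ∧
        (x ∉ (φ i).range → ∀ h : H, x * (φ i h)⁻¹ ∉ N) := by
      intro i x
      by_cases hx : x ∈ (φ i).range
      · exact ⟨⊤, inferInstance, inferInstance, fun h => (h hx).elim⟩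
      · obtain ⟨N, h1, h2, h3⟩ := hcl i x hx
        exact ⟨N, h1, h2, fun _ => h3⟩
    choose Nf hNf1 hNf2 hNf3 using hch
    have hfin : ∀ i, Finite {x : G i // (⟨i, x⟩ : Σ i, G i) ∈ nw.toList} := by
      intro i
      have h1 : ({x : G i | (⟨i, x⟩ : Σ i, G i) ∈ nw.toList}).Finite :=
        (nw.toList.finite_toSet).preimage (sigma_mk_injective.injOn)
      exact h1
    obtain ⟨N, hN, hc⟩ := hcomp
      (fun i => ⨅ x : {x : G i // (⟨i, x⟩ : Σ i, G i) ∈ nw.toList}, Nf i x.1) (fun i =>
      ⟨Subgroup.normal_iInf_normal fun x => hNf1 i x.1,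
        Subgroup.finiteIndex_iInf fun x => hNf2 i x.1⟩)
    refine ⟨N, fun i => ⟨(hN i).1, (hN i).2.1⟩, hc, ?_⟩
    intro K hK hNn ψ Θ h1 h2 h3 h4 h5 h6
    have hred' : ∀ p ∈ nw.toList, (QuotientGroup.mk p.2 : G p.1 ⧸ N p.1) ∉ (ψ p.1).range := by
      rintro ⟨i, x⟩ hp ⟨y, hy⟩
      induction y using QuotientGroup.induction_on with
      | H h =>
        rw [h2] at hy
        rw [QuotientGroup.eq] at hy
        have h8 : x * (φ i h)⁻¹ ∈ N i := by
          have := (hNn i).conj_mem _ hy (φ i h)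
          simpa [mul_assoc] using this
        have h9 := (hN i).2.2 h8
        have h10 := (Subgroup.mem_iInf.mp h9) ⟨x, hp⟩
        exact hNf3 i x (hred _ hp) h h10
    let w' : Word (fun i => G i ⧸ N i) :=
      { toList := nw.toList.map fun p => ⟨p.1, QuotientGroup.mk p.2⟩
        ne_one := by
          intro l hl
          obtain ⟨p, hp, rfl⟩ := List.mem_map.mp hl
          intro h0
          exact hred' p hp ⟨1, by rw [map_one]; exact h0.symm⟩
        chain_ne := by
          rw [List.isChain_map]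
          exact nw.chain_ne }
    have hw' : PushoutI.Reduced ψ w' := by
      intro l hl
      obtain ⟨p, hp, rfl⟩ := List.mem_map.mp hl
      exact hred' p hp
    have hprod : Θ g = PushoutI.base ψ (QuotientGroup.mk nw.head) * PushoutI.ofCoprodI w'.prod := by
      rw [← hnw]
      change Θ (PushoutI.base φ nw.head * PushoutI.ofCoprodI (nw.toWord).prod) = _
      rw [map_mul, h5]
      congr 1
      simp only [Word.prod, map_list_prod, List.map_map, w']
      congr 1
      refine List.map_congr_left fun p _ => ?_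
      simp only [Function.comp_apply, PushoutI.ofCoprodI_of]
      exact h4 _ _
    rw [h6] at hprod
    have hmem : PushoutI.ofCoprodI w'.prod ∈ (PushoutI.base ψ).range := by
      refine ⟨(QuotientGroup.mk nw.head)⁻¹, ?_⟩
      rw [map_inv]
      exact (eq_inv_of_mul_eq_one_right hprod.symm).symm
    have hempty := hw'.eq_empty_of_mem_range h1 hmem
    have hl : nw.toList = [] := by
      have := congrArg Word.toList hempty
      simpa [w', Word.empty] using this
    refine hb ⟨nw.head, ?_⟩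
    rw [← hnw]
    change _ = PushoutI.base φ nw.head * PushoutI.ofCoprodI (nw.toWord).prod
    have : nw.toWord.prod = 1 := by
      simp [Word.prod, hl]
    rw [this, map_one, mul_one]

end prin

end Art.H18
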