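import Pool.Agent.Helper44_Art.Stmt4
import Pool.Agent.Helper44_Art.Api
import Pool.Agent.Helper51_Art.Dih

set_option autoImplicit false

namespace Art.H18

open Art

section words
variable {A : Type} [Group A] {a b c : A}

theorem w1 (hac : a * c = c * a) : a * (c * a⁻¹) * a⁻¹ = c * a⁻¹ := by
  calc a * (c * a⁻¹) * a⁻¹ = (a * c) * a⁻¹ * a⁻¹ := by group
    _ = (c * a) * a⁻¹ * a⁻¹ := by rw [hac]
    _ = c * a⁻¹ := by group

theorem w0 (hbc : b * c * b = c * b * c) : b * c * b⁻¹ = c⁻¹ * b * c := by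
  calc b * c * b⁻¹ = c⁻¹ * (c * b * c) * b⁻¹ := by group
    _ = c⁻¹ * (b * c * b) * b⁻¹ := by rw [hbc]
    _ = c⁻¹ * b * c := by group

theorem w2 (hab : a * b * a = b * a * b) (hbc : b * c * b = c * b * c) :
    a * (b * c * a⁻¹ * b⁻¹) * a⁻¹ = (c * a⁻¹)⁻¹ * (b * c * a⁻¹ * b⁻¹) := by
  calc a * (b * c * a⁻¹ * b⁻¹) * a⁻¹ = a * (b * c) * (a * b * a)⁻¹ := by group
    _ = a * (b * c) * (b * a * b)⁻¹ := by rw [hab]
    _ = a * (b * c * b⁻¹) * a⁻¹ * b⁻¹ := by group
    _ = a * (c⁻¹ * b * c) * a⁻¹ * b⁻¹ := by rw [w0 hbc]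
    _ = (c * a⁻¹)⁻¹ * (b * c * a⁻¹ * b⁻¹) := by group

theorem w3 (hab : a * b * a = b * a * b) : a⁻¹ * b⁻¹ * a = b * a⁻¹ * b⁻¹ := by
  have h : a⁻¹ * b * a = b * a * b⁻¹ := by
    calc a⁻¹ * b * a = a⁻¹ * (b * a * b) * b⁻¹ := by group
      _ = a⁻¹ * (a * b * a) * b⁻¹ := by rw [hab]
      _ = b * a * b⁻¹ := by group
  calc a⁻¹ * b⁻¹ * a = (a⁻¹ * b * a)⁻¹ := by group
    _ = (b * a * b⁻¹)⁻¹ := by rw [h]
    _ = b * a⁻¹ * b⁻¹ := by group

theorem w4 (hab : a * b * a = b * a * b) (hbc : b * c * b = c * b * c) (hac : a * c = c * a) :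
    b * (b * c * a⁻¹ * b⁻¹) * b⁻¹ =
      (b * c * a⁻¹ * b⁻¹) * (c * a⁻¹)⁻¹ * (b * c * a⁻¹ * b⁻¹) := by
  have hac' : a⁻¹ * c = c * a⁻¹ := by
    calc a⁻¹ * c = a⁻¹ * (c * a) * a⁻¹ := by group
      _ = a⁻¹ * (a * c) * a⁻¹ := by rw [hac]
      _ = c * a⁻¹ := by group
  have h5 : a⁻¹ * (a * b * a)⁻¹ = b⁻¹ * a⁻¹ * b⁻¹ * b⁻¹ := by
    calc a⁻¹ * (a * b * a)⁻¹ = ((a * b * a) * a)⁻¹ := by group
      _ = ((b * a * b) * a)⁻¹ := by rw [hab]
      _ = (b * (a * b * a))⁻¹ := by group
      _ = (b * (b * a * b))⁻¹ := by rw [hab]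
      _ = b⁻¹ * a⁻¹ * b⁻¹ * b⁻¹ := by group
  symm
  calc (b * c * a⁻¹ * b⁻¹) * (c * a⁻¹)⁻¹ * (b * c * a⁻¹ * b⁻¹)
      = b * c * (a⁻¹ * b⁻¹ * a) * (c⁻¹ * b * c) * a⁻¹ * b⁻¹ := by group
    _ = b * c * (b * a⁻¹ * b⁻¹) * (b * c * b⁻¹) * a⁻¹ * b⁻¹ := by rw [w3 hab, w0 hbc]
    _ = b * c * b * (a⁻¹ * c) * (b * a * b)⁻¹ := by group
    _ = b * c * b * (c * a⁻¹) * (a * b * a)⁻¹ := by rw [hac', hab]
    _ = b * (c * b * c) * (a⁻¹ * (a * b * a)⁻¹) := by group
    _ = b * (b * c * b) * (b⁻¹ * a⁻¹ * b⁻¹ * b⁻¹) := by rw [hbc, h5]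
    _ = b * (b * c * a⁻¹ * b⁻¹) * b⁻¹ := by group

end words

/-! ### The braid group on three strands acting on the free group of rank two -/

/-- label three on two generators -/
def N3 : CoxeterMatrix Bool where
  M := fun i j => if i = j then 1 else 3
  isSymm := by
    ext i j
    show (if j = i then 1 else 3) = if i = j then 1 else 3
    simp [eq_comm]
  diagonal i := by simp
  off_diagonal i j h := by simp [h]

/-- first generator of the free group -/
abbrev fu : FreeGroup (Fin 2) := FreeGroup.of 0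

/-- second generator of the free group -/
abbrev fv : FreeGroup (Fin 2) := FreeGroup.of 1

/-- homomorphisms of the free group of rank two -/
def fl {G : Type} [Group G] (x y : G) : FreeGroup (Fin 2) →* G := FreeGroup.lift ![x, y]

@[simp] theorem fl_u {G : Type} [Group G] (x y : G) : fl x y fu = x := by
  simp [fl, fu]

@[simp] theorem fl_v {G : Type} [Group G] (x y : G) : fl x y fv = y := by
  simp [fl, fv]

theorem f2_ext {G : Type} [Group G] {φ ψ : FreeGroup (Fin 2) →* G} (h0 : φ fu = ψ fu)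
    (h1 : φ fv = ψ fv) : φ = ψ := by
  refine FreeGroup.ext_hom _ _ fun i => ?_
  fin_cases i
  · exact h0
  · exact h1

/-- the automorphism `s₁` -/
def al1 : MulAut (FreeGroup (Fin 2)) :=
  MonoidHom.toMulEquiv (fl fu (fu⁻¹ * fv)) (fl fu (fu * fv))
    (f2_ext (by simp) (by simp)) (f2_ext (by simp) (by simp))

/-- the automorphism `s₂` -/
def al2 : MulAut (FreeGroup (Fin 2)) :=
  MonoidHom.toMulEquiv (fl fv (fv * fu⁻¹ * fv)) (fl (fu * fv⁻¹ * fu) fu)
    (f2_ext (by simp) (by simp)) (f2_ext (by simp) (by simp))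

@[simp] theorem al1_u : al1 fu = fu := by
  show fl fu (fu⁻¹ * fv) fu = _
  simp

@[simp] theorem al1_v : al1 fv = fu⁻¹ * fv := by
  show fl fu (fu⁻¹ * fv) fv = _
  simp

@[simp] theorem al2_u : al2 fu = fv := by
  show fl fv (fv * fu⁻¹ * fv) fu = _
  simp

@[simp] theorem al2_v : al2 fv = fv * fu⁻¹ * fv := by
  show fl fv (fv * fu⁻¹ * fv) fv = _
  simp

theorem al_braid : al1 * al2 * al1 = al2 * al1 * al2 := by
  apply MulEquiv.toMonoidHom_injective
  apply f2_ext
  · show al1 (al2 (al1 fu)) = al2 (al1 (al2 fu))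
    simp
    group
  · show al1 (al2 (al1 fv)) = al2 (al1 (al2 fv))
    simp
    group

theorem alt3 {G : Type} [Monoid G] (x y : G) : alt 3 x y = x * y * x := by
  rw [show (3 : ℕ) = 2 + 1 from rfl, alt_succ, alt_two, mul_assoc]

theorem exists_act : ∃ φ : Gp N3 →* MulAut (FreeGroup (Fin 2)),
    φ (gen N3 false) = al1 ∧ φ (gen N3 true) = al2 := by
  obtain ⟨φ, hφ⟩ := lift N3 (fun s => if s = true then al2 else al1) (by
    intro s t _
    cases s <;> cases t
    · rfl
    · show alt 3 al1 al2 = alt 3 al2 al1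
      rw [alt3, alt3]
      exact al_braid
    · show alt 3 al2 al1 = alt 3 al1 al2
      rw [alt3, alt3]
      exact al_braid.symm
    · rfl)
  exact ⟨φ, hφ false, hφ true⟩

theorem t233 (h1 : SemiStmt) (h2 : FreeStmt) (h3 : DihStmt) : T233Stmt := by
  classical
  intro S M a b c hab hac hbc hall mab mbc mac
  obtain ⟨φ, hφ1, hφ2⟩ := exists_act
  have hQ : RF (Gp N3) := h3 N3 false true (by decide) (fun x => by cases x <;> simp)
    (by show (if false = true then 1 else 3) ≠ 0; simp)
  have hRF : RF (FreeGroup (Fin 2) ⋊[φ] Gp N3) := h1 φ inferInstance (h2 2) hQ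
  -- relations in `Gp M`
  have rab : gen M a * gen M b * gen M a = gen M b * gen M a * gen M b := by
    have := relHolds M a b (by rw [mab]; norm_num)
    rw [mab, alt3, alt3] at this
    exact this
  have rbc : gen M b * gen M c * gen M b = gen M c * gen M b * gen M c := by
    have := relHolds M b c (by rw [mbc]; norm_num)
    rw [mbc, alt3, alt3] at this
    exact this
  have rac : gen M a * gen M c = gen M c * gen M a := by
    have := relHolds M a c (by rw [mac]; norm_num)
    rw [mac, alt_two, alt_two] at this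
    exact this
  have r3 : gen N3 false * gen N3 true * gen N3 false =
      gen N3 true * gen N3 false * gen N3 true := by
    have := relHolds N3 false true (by show (if false = true then 1 else 3) ≠ 0; simp)
    rw [show N3.M false true = 3 from rfl, alt3, alt3] at this
    exact this
  -- the map into the semidirect product
  set ea : FreeGroup (Fin 2) ⋊[φ] Gp N3 := ⟨1, gen N3 false⟩ with hea
  set eb : FreeGroup (Fin 2) ⋊[φ] Gp N3 := ⟨1, gen N3 true⟩ with heb
  set ec : FreeGroup (Fin 2) ⋊[φ] Gp N3 := ⟨fu, gen N3 false⟩ with hec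
  have eab : ea * eb * ea = eb * ea * eb := by
    apply SemidirectProduct.ext
    · simp [hea, heb]
    · simpa [hea, heb] using r3
  have eac : ea * ec = ec * ea := by
    apply SemidirectProduct.ext
    · simp [hea, hec, hφ1]
    · simp [hea, hec]
  have ebc : eb * ec * eb = ec * eb * ec := by
    apply SemidirectProduct.ext
    · simp [heb, hec, hφ1, hφ2]
    · simpa [heb, hec] using r3.symm
  obtain ⟨Θ, hΘ⟩ := lift M (fun s => if s = a then ea else if s = b then eb else ec) (by
    intro s t hst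
    have hsym : ∀ x y, M.M x y = M.M y x := fun x y => M.symmetric x y
    have fa : (if a = a then ea else if a = b then eb else ec) = ea := if_pos rfl
    have fb : (if b = a then ea else if b = b then eb else ec) = eb := by
      rw [if_neg (Ne.symm hab), if_pos rfl]
    have fc : (if c = a then ea else if c = b then eb else ec) = ec := by
      rw [if_neg (Ne.symm hac), if_neg (Ne.symm hbc)]
    rcases hall s with rfl | rfl | rfl <;> rcases hall t with rfl | rfl | rfl
    · rfl
    · rw [fa, fb, mab, alt3, alt3]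
      exact eab
    · rw [fa, fc, mac, alt_two, alt_two]
      exact eac
    · rw [fa, fb, hsym, mab, alt3, alt3]
      exact eab.symm
    · rfl
    · rw [fb, fc, mbc, alt3, alt3]
      exact ebc
    · rw [fa, fc, hsym, mac, alt_two, alt_two]
      exact eac.symm
    · rw [fb, fc, hsym, mbc, alt3, alt3]
      exact ebc.symm
    · rfl)
  have Θa : Θ (gen M a) = ea := by rw [hΘ, if_pos rfl]
  have Θb : Θ (gen M b) = eb := by rw [hΘ, if_neg (Ne.symm hab), if_pos rfl]
  have Θc : Θ (gen M c) = ec := by rw [hΘ, if_neg (Ne.symm hac), if_neg (Ne.symm hbc)]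
  -- the left inverse
  obtain ⟨f2, hf2⟩ := lift N3 (fun s => if s = true then gen M b else gen M a) (by
    intro s t _
    cases s <;> cases t
    · rfl
    · show alt 3 (gen M a) (gen M b) = alt 3 (gen M b) (gen M a)
      rw [alt3, alt3]
      exact rab
    · show alt 3 (gen M b) (gen M a) = alt 3 (gen M a) (gen M b)
      rw [alt3, alt3]
      exact rab.symm
    · rfl)
  have f2a : f2 (gen N3 false) = gen M a := hf2 false
  have f2b : f2 (gen N3 true) = gen M b := hf2 true
  let f1 : FreeGroup (Fin 2) →* Gp M := fl (gen M c * (gen M a)⁻¹)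
    (gen M b * gen M c * (gen M a)⁻¹ * (gen M b)⁻¹)
  have hcomp : ∀ q : Gp N3, f1.comp (φ q).toMonoidHom =
      (MulAut.conj (f2 q)).toMonoidHom.comp f1 := by
    let P : Subgroup (Gp N3) :=
      { carrier := {q | ∀ x, f1 (φ q x) = f2 q * f1 x * (f2 q)⁻¹}
        mul_mem' := by
          intro q r hq hr x
          rw [map_mul, MulAut.mul_apply, hq, hr, map_mul, mul_inv_rev]
          group
        one_mem' := by
          intro x
          simp
        inv_mem' := by
          intro q hq x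
          have h4 := hq (φ q⁻¹ x)
          rw [← MulAut.mul_apply, ← map_mul, mul_inv_cancel, map_one, MulAut.one_apply] at h4
          rw [h4, map_inv f2]
          group }
    have hP : (⊤ : Subgroup (Gp N3)) ≤ P := by
      rw [← closure_gen N3, Subgroup.closure_le]
      rintro _ ⟨s, rfl⟩
      have key : ∀ (α : MulAut (FreeGroup (Fin 2))) (g : Gp M),
          f1 (α fu) = g * f1 fu * g⁻¹ → f1 (α fv) = g * f1 fv * g⁻¹ →
          ∀ x, f1 (α x) = g * f1 x * g⁻¹ := by
        intro α g h5 h6 x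
        have h7 : f1.comp α.toMonoidHom = (MulAut.conj g).toMonoidHom.comp f1 := by
          apply f2_ext
          · exact h5
          · exact h6
        exact DFunLike.congr_fun h7 x
      cases s
      · intro x
        rw [hφ1, f2a]
        refine key al1 (gen M a) ?_ ?_ x
        · rw [al1_u]
          show f1 fu = gen M a * f1 fu * (gen M a)⁻¹
          rw [show f1 fu = gen M c * (gen M a)⁻¹ from fl_u _ _]
          exact (w1 rac).symm
        · rw [al1_v, map_mul, map_inv]
          rw [show f1 fu = gen M c * (gen M a)⁻¹ from fl_u _ _,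
            show f1 fv = gen M b * gen M c * (gen M a)⁻¹ * (gen M b)⁻¹ from fl_v _ _]
          exact (w2 rab rbc).symm
      · intro x
        rw [hφ2, f2b]
        refine key al2 (gen M b) ?_ ?_ x
        · rw [al2_u]
          rw [show f1 fu = gen M c * (gen M a)⁻¹ from fl_u _ _,
            show f1 fv = gen M b * gen M c * (gen M a)⁻¹ * (gen M b)⁻¹ from fl_v _ _]
          group
        · rw [al2_v, map_mul, map_mul, map_inv]
          rw [show f1 fu = gen M c * (gen M a)⁻¹ from fl_u _ _,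
            show f1 fv = gen M b * gen M c * (gen M a)⁻¹ * (gen M b)⁻¹ from fl_v _ _]
          exact (w4 rab rbc rac).symm
    intro q
    refine MonoidHom.ext fun x => ?_
    exact hP (Subgroup.mem_top q) x
  let Ξ : FreeGroup (Fin 2) ⋊[φ] Gp N3 →* Gp M := SemidirectProduct.lift f1 f2 hcomp
  have hΞ : ∀ x : FreeGroup (Fin 2) ⋊[φ] Gp N3, Ξ x = f1 x.1 * f2 x.2 := fun x => rfl
  have hid : Ξ.comp Θ = MonoidHom.id _ := by
    apply ext M
    intro s
    rcases hall s with rfl | rfl | rfl
    · show Ξ (Θ (gen M s)) = gen M s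
      rw [Θa, hΞ, hea, map_one, one_mul, f2a]
    · show Ξ (Θ (gen M s)) = gen M s
      rw [Θb, hΞ, heb, map_one, one_mul, f2b]
    · show Ξ (Θ (gen M s)) = gen M s
      rw [Θc, hΞ, hec, f2a, show f1 fu = gen M s * (gen M a)⁻¹ from fl_u _ _,
        inv_mul_cancel_right]
  have hl : Function.LeftInverse Ξ Θ := fun x => DFunLike.congr_fun hid x
  exact Art.H51.rf_of_injective Θ hl.injective hRF

end Art.H18
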