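import Pool.Agent.Helper44_Art.Stmt4

set_option autoImplicit false

namespace Art.H18

open Art

theorem fino : FinoStmt := by
  intro G A _ _ j hj hfi hG
  rw [RF, Group.residuallyFinite_iff_exists_finiteIndex]
  intro a ha
  by_cases h : a ∈ j.range
  · obtain ⟨g, rfl⟩ := h
    have hg : g ≠ 1 := fun h1 => ha (by rw [h1, map_one])
    obtain ⟨K, hK1, hK2⟩ := Group.residuallyFinite_iff_exists_finiteIndex.mp hG g hg
    refine ⟨K.map j, ⟨?_⟩, ?_⟩
    · rw [Subgroup.index_map, (MonoidHom.ker_eq_bot_iff j).mpr hj, sup_bot_eq]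
      exact mul_ne_zero hK1.index_ne_zero hfi.index_ne_zero
    · rintro ⟨k, hk, hk'⟩
      rw [hj hk'] at hk
      exact hK2 hk
  · exact ⟨j.range, hfi, h⟩

end Art.H18
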